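import Pool.Agent.H46.MicA.Out

/-!
# From the local theorem at a pair to the local theorem
-/

set_option autoImplicit false

namespace Pool.MicA

open Finset MvPolynomial
open Pool.Agent.H49.Ent Pool.Agent.H32.Dense Pool.STK Pool.STAT Pool.MIC Pool.MIC.Frm Pool.LBL
open Pool.BFL (Pl Pb)
open Pool.STAT.Glu (EvK glu_thm kN)

/-- Comparison of two levels. -/
theorem lev_le {D : NDat2} {n K J a₀ w₀ z M : ℕ} {lam gam : ℕ → ℝ} {κ C₁ : ℝ} {q : D.Ω → ℝ}
    (hO : D.Ok2 n K J a₀ w₀ z M lam gam κ C₁ q) {i j i' j' l x : ℕ} (hi : i ≤ M) (hj : j ≤ M)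
    (hi' : i' ≤ M) (hj' : j' ≤ M) (l1 : 1 ≤ l) (l2 : l ≤ n)
    (h : lam l * i + gam l * j + x + 2 * C₁ ≤ lam l * i' + gam l * j') :
    D.g i j l + x * z ≤ D.g i' j' l := by
  have h1 := abs_le.1 (hO.hom i hi j hj l l1 l2)
  have h2 := abs_le.1 (hO.hom i' hi' j' hj' l l1 l2)
  have hz : (0 : ℝ) ≤ z := Nat.cast_nonneg z
  have h3 := mul_le_mul_of_nonneg_right h hz
  have h4 : ((D.g i j l : ℕ) : ℝ) + x * z ≤ D.g i' j' l := by
    have e1 : (lam l * i + gam l * j + x + 2 * C₁) * z =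
        (lam l * i + gam l * j) * z + x * z + 2 * C₁ * z := by ring
    rw [e1] at h3
    have e2 : (lam l * (i' : ℝ) + gam l * j') * z = (lam l * i' + gam l * j') * z := rfl
    linarith [h1.1, h1.2, h2.1, h2.2]
  exact_mod_cast h4

/-- A slope between the ratios of the base and the ratio of the target. -/
theorem exists_slope {n : ℕ} {lam gam : ℕ → ℝ} (hl : ∀ l, 1 ≤ lam l) (hn : 0 < gam n) (h : ∀ l, 1 ≤ l → l < n → gam l * lam n < gam n * lam l) :
    ∃ ρ : ℝ, 0 < ρ ∧ lam n * ρ < gam n ∧ ∀ l, 1 ≤ l → l < n → gam l < lam l * ρ := by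
  classical
  have hln : 0 < lam n := by linarith [hl n]
  obtain ⟨s, hs⟩ : ∃ s : ℝ, 0 ≤ s ∧ lam n * s < gam n ∧ ∀ l, 1 ≤ l → l < n → gam l ≤ lam l * s := by
    have key : ∀ m ≤ n, ∃ s : ℝ, 0 ≤ s ∧ lam n * s < gam n ∧
        ∀ l, 1 ≤ l → l < m → gam l ≤ lam l * s := by
      intro m
      induction m with
      | zero => exact fun _ => ⟨0, le_rfl, by linarith, fun l _ h2 => absurd h2 (by omega)⟩
      | succ m ih =>
        intro hm
        obtain ⟨s, s0, s1, s2⟩ := ih (by omega)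
        by_cases hm0 : m = 0
        · exact ⟨s, s0, s1, fun l h1 h2 => absurd h2 (by omega)⟩
        have hlm : 0 < lam m := by linarith [hl m]
        refine ⟨max s (gam m / lam m), s0.trans (le_max_left _ _), ?_, ?_⟩
        · rcases le_total s (gam m / lam m) with h1 | h1
          · rw [max_eq_right h1, mul_div_assoc', div_lt_iff₀ hlm, mul_comm]
            exact h m (by omega) (by omega)
          · rw [max_eq_left h1]
            exact s1
        · intro l h1 h2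
          have hll : 0 < lam l := by linarith [hl l]
          rcases Nat.lt_succ_iff_lt_or_eq.1 h2 with h3 | rfl
          · exact (s2 l h1 h3).trans (mul_le_mul_of_nonneg_left (le_max_left _ _) hll.le)
          · calc gam l = lam l * (gam l / lam l) := by field_simp
              _ ≤ _ := mul_le_mul_of_nonneg_left (le_max_right _ _) hll.le
    exact key n le_rfl
  obtain ⟨s0, s1, s2⟩ := hs
  refine ⟨(s + gam n / lam n) / 2, ?_, ?_, ?_⟩
  · have : 0 < gam n / lam n := div_pos hn hln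
    linarith
  · have e : lam n * ((s + gam n / lam n) / 2) = (lam n * s + gam n) / 2 := by
      field_simp
    rw [e]
    linarith
  · intro l h1 h2
    have hll : 0 < lam l := by linarith [hl l]
    have h3 : s < (s + gam n / lam n) / 2 := by
      have : s < gam n / lam n := by
        rw [lt_div_iff₀ hln, mul_comm]
        exact s1
      linarith
    exact (s2 l h1 h2).trans_lt (mul_lt_mul_of_pos_left h3 hll)

/-- A large multiple. -/
theorem exists_large {a : ℝ} (ha : 0 < a) (b : ℝ) : ∃ N : ℕ, ∀ x : ℕ, N ≤ x → b ≤ a * x := by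
  obtain ⟨N, hN⟩ := exists_nat_ge (b / a)
  refine ⟨N, fun x hx => ?_⟩
  have h1 : b / a ≤ x := hN.trans (by exact_mod_cast hx)
  rw [div_le_iff₀ ha] at h1
  linarith

/-- Finitely many large multiples. -/
theorem exists_large_all (n : ℕ) (a b : ℕ → ℝ) (h : ∀ l, 1 ≤ l → l < n → 0 < a l) :
    ∃ N : ℕ, ∀ x : ℕ, N ≤ x → ∀ l, 1 ≤ l → l < n → b l ≤ a l * x := by
  induction n with
  | zero => exact ⟨0, fun x _ l _ h2 => absurd h2 (by omega)⟩
  | succ n ih =>
    obtain ⟨N, hN⟩ := ih fun l h1 h2 => h l h1 (by omega)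
    by_cases h0 : 1 ≤ n
    · obtain ⟨N', hN'⟩ := exists_large (h n h0 (by omega)) (b n)
      refine ⟨max N N', fun x hx l h1 h2 => ?_⟩
      rcases Nat.lt_succ_iff_lt_or_eq.1 h2 with h3 | rfl
      · exact hN x ((le_max_left _ _).trans hx) l h1 h3
      · exact hN' x ((le_max_right _ _).trans hx)
    · exact ⟨0, fun x _ l h1 h2 => absurd h2 (by omega)⟩

/-- **From the local theorem at a pair to the local theorem.** -/
theorem mic_of_out : MicOfOutStmt := by
  intro Q hQ hout n K A B R lam gam C₁ h hn hB hlam hgam hgn hC₁ hh hh1 hQn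
  obtain ⟨V, hV⟩ := exists_nat_ge (lam n + gam n)
  obtain ⟨N₁, hN₁⟩ := exists_nat_ge C₁
  obtain ⟨A₂, a, K₂, c₁, hVa, hc₁, hout1⟩ := hout n K B (max R 1) V lam gam C₁ h hn hB
    (le_max_right _ _) hlam hgam hgn hC₁ hh hh1 hQn
  obtain ⟨CG, κg, zg, hκg, hglu⟩ := glu_thm n K (K * (K + 1) ^ n) K₂ C₁ c₁ hn hc₁ le_rfl
  obtain ⟨m, U, bb, d, hm, hU, hout2⟩ := hout1 (A + CG + 2 * N₁)
  obtain ⟨k, hk⟩ : ∃ k, k = A₂ * m := ⟨_, rfl⟩
  obtain ⟨R', hR'⟩ : ∃ R', R' = max R 1 := ⟨_, rfl⟩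
  rw [← hR'] at hout2
  -- the geometry
  obtain ⟨ρ, hρ0, hρn, hρl⟩ := exists_slope hlam hgn (hQ n lam gam hQn)
  obtain ⟨x1, hx1⟩ := exists_large_all n (fun l => lam l * ρ - gam l)
    (fun l => lam l * d + 2 * C₁) (fun l h1 h2 => by
      have := hρl l h1 h2
      linarith)
  obtain ⟨x2, hx2⟩ := exists_large (a := gam n - lam n * ρ) (by linarith)
    (lam n * (1 + d + k) + gam n * k + U + A + CG + 2 * C₁)
  obtain ⟨x3, hx3⟩ := exists_large hρ0 ((R' * U : ℕ) : ℝ)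
  obtain ⟨dj, hdj⟩ : ∃ dj, dj = max (max x1 x2) (max x3 (R' * U)) := ⟨_, rfl⟩
  have q1 := hx1 dj (by rw [hdj]; exact (le_max_left _ _).trans (le_max_left _ _))
  have q2 := hx2 dj (by rw [hdj]; exact (le_max_right _ _).trans (le_max_left _ _))
  have q3 := hx3 dj (by rw [hdj]; exact (le_max_left _ _).trans (le_max_right _ _))
  have q4 : R' * U ≤ dj := by rw [hdj]; exact (le_max_right _ _).trans (le_max_right _ _)
  obtain ⟨di, hdi⟩ : ∃ di, di = ⌈ρ * (dj : ℝ)⌉₊ := ⟨_, rfl⟩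
  have d1 : ρ * dj ≤ di := by rw [hdi]; exact Nat.le_ceil _
  have d2 : (di : ℝ) ≤ ρ * dj + 1 := by
    rw [hdi]
    exact (Nat.ceil_lt_add_one (by positivity)).le
  have d3 : R' * U ≤ di := by
    have : ((R' * U : ℕ) : ℝ) ≤ di := q3.trans d1
    exact_mod_cast this
  have hd0 : (0 : ℝ) ≤ d := Nat.cast_nonneg d
  obtain ⟨i', hi'⟩ : ∃ i', i' = R' * U + d := ⟨_, rfl⟩
  obtain ⟨i, hi⟩ : ∃ i, i = i' + di := ⟨_, rfl⟩
  obtain ⟨j, hj⟩ : ∃ j, j = R' * U := ⟨_, rfl⟩
  obtain ⟨j', hj'⟩ : ∃ j', j' = j + dj := ⟨_, rfl⟩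
  obtain ⟨y, hy⟩ := exists_large hgn (U : ℝ)
  obtain ⟨M, hM⟩ : ∃ M, M = i + j' + R' * U + B * U + d + k + y + 1 := ⟨_, rfl⟩
  obtain ⟨κ, ϖ, z₀, hκ, hϖ, hout3⟩ := hout2 M
  refine ⟨M, kN K K₂, c₁ / 4, min κ κg, ϖ, max z₀ (max zg 1), by positivity, lt_min hκ hκg, hϖ,
    ?_⟩
  intro J a₀ w₀ z D q hz hO hLV hLN hNF hT
  have hz0 : z₀ ≤ z := (le_max_left _ _).trans hz
  have hzg : zg ≤ z := ((le_max_left _ _).trans (le_max_right _ _)).trans hz
  have hz1 : 1 ≤ z := ((le_max_right _ _).trans (le_max_right _ _)).trans hz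
  have hzr : (0 : ℝ) ≤ z := Nat.cast_nonneg z
  have iM : i ≤ M := by omega
  have jM : j ≤ M := by omega
  have i'M : i' ≤ M := by omega
  have j'M : j' ≤ M := by omega
  have ci : (i : ℝ) = i' + di := by rw [hi]; push_cast; ring
  have cj' : (j' : ℝ) = j + dj := by rw [hj']; push_cast; ring
  have ck : (0 : ℝ) ≤ k := Nat.cast_nonneg k
  have hlev : ∀ l, 1 ≤ l → l ≤ n → ∀ x : ℕ, ∀ i₁ ≤ M, ∀ j₁ ≤ M, ∀ i₂ ≤ M, ∀ j₂ ≤ M,
      lam l * i₁ + gam l * j₁ + x + 2 * C₁ ≤ lam l * i₂ + gam l * j₂ →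
      D.g i₁ j₁ l + x * z ≤ D.g i₂ j₂ l := fun l l1 l2 x i₁ h1 j₁ h2 i₂ h3 j₂ h4 h5 =>
    lev_le hO h1 h2 h3 h4 l1 l2 h5
  have hdi' : d ≤ i := by omega
  have cid : ((i - d : ℕ) : ℝ) = i' + di - d := by
    rw [Nat.cast_sub hdi', ci]
  have hfat : ∀ e : ℕ, e ≤ d → Fat D n (i - e) j i' j' := by
    intro e he l l1 l2
    have h1 := q1 l l1 l2
    have h2 := hlam l
    have h3 : ((i - e : ℕ) : ℝ) = i' + di - e := by
      rw [Nat.cast_sub (by omega), ci]
    have h4 : (e : ℝ) ≤ d := by exact_mod_cast he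
    have h5 := hlev l l1 l2.le 0 i' i'M j' j'M (i - e) (by omega) j jM (by
      rw [h3, cj', Nat.cast_zero]
      have h6 : lam l * (ρ * dj) ≤ lam l * di := mul_le_mul_of_nonneg_left d1 (by linarith)
      have h7 : lam l * e ≤ lam l * d := mul_le_mul_of_nonneg_left h4 (by linarith)
      nlinarith)
    omega
  have hln := hlam n
  have n1 : lam n * di ≤ lam n * (ρ * dj + 1) := mul_le_mul_of_nonneg_left d2 (by linarith)
  have hUr : (0 : ℝ) ≤ U := Nat.cast_nonneg U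
  have hAr : (0 : ℝ) ≤ A := Nat.cast_nonneg A
  have hCr : (0 : ℝ) ≤ CG := Nat.cast_nonneg CG
  have hlk : 0 ≤ lam n * (k : ℝ) := mul_nonneg (by linarith) ck
  have hgk : 0 ≤ gam n * (k : ℝ) := mul_nonneg hgn.le ck
  have hld : 0 ≤ lam n * (d : ℝ) := mul_nonneg (by linarith) hd0
  have hgeo : Geo D n z M B R' U d i j i' j' gam := by
    refine ⟨⟨by omega, by omega, by omega, by omega⟩, ⟨by omega, by omega, by omega, by omega⟩,
      by omega, by omega, by omega, ?_, hdi', by omega, hfat d le_rfl, ?_⟩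
    · have h1 : (y : ℝ) ≤ (M : ℝ) - j := by
        have : ((y + j : ℕ) : ℝ) ≤ M := by exact_mod_cast (by omega : y + j ≤ M)
        push_cast at this
        linarith
      exact (hy y le_rfl).trans (mul_le_mul_of_nonneg_left h1 hgn.le)
    · refine hlev n hn le_rfl U (i + d) (by omega) j jM i' i'M j' j'M ?_
      rw [cj', Nat.cast_add, ci]
      nlinarith
  have hOκ : D.Ok2 n K J a₀ w₀ z M lam gam κ C₁ q := hO.mono_κ (min_le_left _ _)
  have hOg : D.Ok2 n K J a₀ w₀ z M lam gam κg C₁ q := hO.mono_κ (min_le_right _ _)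
  have mk : min κ κg * (z : ℝ) ≤ κ * z := mul_le_mul_of_nonneg_right (min_le_left _ _) hzr
  have mg : min κ κg * (z : ℝ) ≤ κg * z := mul_le_mul_of_nonneg_right (min_le_right _ _) hzr
  have hTκ : D.TmU J w₀ z κ q := by
    unfold NDat2.TmU at hT ⊢
    linarith
  have hTg : D.TmU J w₀ z κg q := by
    unfold NDat2.TmU at hT ⊢
    linarith
  obtain ⟨H, hH, hE⟩ := hout3 J a₀ w₀ z i j i' j' D q hz0 hgeo hOκ (hLV.mono (min_le_left _ _))
    (hLN.mono (by rw [hR']; exact le_max_left _ _) (min_le_left _ _)) hNF hTκ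
  refine ⟨i + k, by omega, j + k, by omega, ?_⟩
  have hful := Pool.MIC.UniD.ful_of_llv (κ₀ := κg) hLV hO.isLaw.nonneg (min_le_right _ _)
    (U := 1) (i := i) (by omega) jM i'M j'M (by
      have := hfat 0 (Nat.zero_le _)
      rwa [Nat.sub_zero] at this)
  rw [Nat.one_mul] at hful
  have hfat0 : Fat D n i j i' j' := by
    have := hfat 0 (Nat.zero_le _)
    rwa [Nat.sub_zero] at this
  refine hglu A k J a₀ w₀ z M i j i' j' (U * z) (bb * z) ((a * m) * z) lam gam D q H hzg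
    (by omega) (by omega) (by omega) j'M hfat0 hOg hTg hful hH ?_ ?_ ?_ ?_ ?_
  · refine hlev n hn le_rfl U i iM j jM i' i'M j' j'M ?_
    rw [cj', ci]
    nlinarith
  · exact Nat.mul_le_mul_right _ hU
  · refine hlev n hn le_rfl (A + CG) (i + k) (by omega) (j + k) (by omega) i' i'M j' j'M ?_
    rw [cj', Nat.cast_add, Nat.cast_add, Nat.cast_add, ci]
    nlinarith
  · have h1 : (A₂ * V + 1) * m ≤ a * m := Nat.mul_le_mul_right _ (by
      rw [mul_comm A₂ V]
      omega)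
    have h2 : ((A₂ * V * m + m : ℕ) : ℝ) ≤ ((a * m : ℕ) : ℝ) := by
      have : A₂ * V * m + m = (A₂ * V + 1) * m := by ring
      rw [this]
      exact_mod_cast h1
    have h3 : ((A + CG + 2 * N₁ : ℕ) : ℝ) ≤ m := by exact_mod_cast hm
    push_cast at h2 h3
    have h4 : (lam n + gam n) * k ≤ V * k := mul_le_mul_of_nonneg_right hV ck
    have h5 : (V : ℝ) * k = A₂ * V * m := by
      rw [hk]
      push_cast
      ring
    have h6 := abs_le.1 (hO.hom i iM j jM n hn le_rfl)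
    have h7 := abs_le.1 (hO.hom (i + k) (by omega) (j + k) (by omega) n hn le_rfl)
    have h8 : (lam n * ((i + k : ℕ) : ℝ) + gam n * ((j + k : ℕ) : ℝ)) * z =
        (lam n * i + gam n * j) * z + (lam n + gam n) * k * z := by
      push_cast
      ring
    rw [h8] at h7
    have h9 : (lam n + gam n) * k * z + (A + CG + 2 * C₁) * z ≤ (a * m) * z := by
      rw [← add_mul]
      refine mul_le_mul_of_nonneg_right ?_ hzr
      linarith
    have h10 : ((D.g (i + k) (j + k) n + (A + CG) * z : ℕ) : ℝ) ≤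
        ((D.g i j n + (a * m) * z : ℕ) : ℝ) := by
      push_cast
      have e1 : (A + CG + 2 * C₁) * (z : ℝ) = (A + CG) * z + 2 * C₁ * z := by ring
      rw [e1] at h9
      linarith [h6.1, h6.2, h7.1, h7.2]
    exact_mod_cast h10
  · rw [hk]
    exact hE

end Pool.MicA
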